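import Mathlib
import Pool.Agent.helper7.IG.Basic

/-!
# IG, module CO1: the components of the inverse of eta as polynomials in the theta series
-/

set_option autoImplicit false

open Polynomial

noncomputable section

namespace Pool.Agent.helper7.IG

/-- all exponents of `F` satisfy `P` -/
def co1_supp (P : ℤ → Prop) (F : LL) : Prop := ∀ n, F.coeff n ≠ 0 → P n

theorem co1_mul {P Q R : ℤ → Prop} (h : ∀ a b, P a → Q b → R (a + b)) {F G : LL}
    (hF : co1_supp P F) (hG : co1_supp Q G) : co1_supp R (F * G) := by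
  intro n hn
  rw [HahnSeries.coeff_mul] at hn
  obtain ⟨⟨a, b⟩, hab, hne⟩ := Finset.exists_ne_zero_of_sum_ne_zero hn
  have h1 : a + b = n := by
    simp only [Finset.mem_antidiagonal] at hab
    exact hab.2.2
  rw [← h1]
  exact h a b (hF a (left_ne_zero_of_mul hne)) (hG b (right_ne_zero_of_mul hne))

theorem co1_coeff_sum {ι : Type*} (s : Finset ι) (f : ι → LL) (n : ℤ) :
    (∑ i ∈ s, f i).coeff n = ∑ i ∈ s, (f i).coeff n := by
  classical
  induction s using Finset.induction_on with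
  | empty => simp
  | insert a s ha ih => rw [Finset.sum_insert ha, Finset.sum_insert ha, HahnSeries.coeff_add, ih]

theorem co1_sum {ι : Type*} {P : ℤ → Prop} (s : Finset ι) (f : ι → LL)
    (h : ∀ i ∈ s, co1_supp P (f i)) : co1_supp P (∑ i ∈ s, f i) := by
  intro n hn
  rw [co1_coeff_sum] at hn
  obtain ⟨i, hi, hne⟩ := Finset.exists_ne_zero_of_sum_ne_zero hn
  exact h i hi n hne

theorem co1_prod {ι : Type*} (M : ℤ) (s : Finset ι) (f : ι → LL) (δ : ι → ℤ)
    (h : ∀ i ∈ s, co1_supp (fun n => n ≡ δ i [ZMOD M]) (f i)) :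
    co1_supp (fun n => n ≡ ∑ i ∈ s, δ i [ZMOD M]) (∏ i ∈ s, f i) := by
  classical
  induction s using Finset.induction_on with
  | empty =>
    rw [Finset.prod_empty, Finset.sum_empty]
    intro n hn
    rw [HahnSeries.coeff_one] at hn
    have : n = 0 := by
      by_contra h0
      exact hn (if_neg h0)
    rw [this]
  | insert a s ha ih =>
    rw [Finset.prod_insert ha, Finset.sum_insert ha]
    exact co1_mul (fun a b h1 h2 => h1.add h2) (h a (Finset.mem_insert_self _ _))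
      (ih fun i hi => h i (Finset.mem_insert_of_mem hi))

theorem co1_pow (M : ℤ) (F : LL) (δ : ℤ) (h : co1_supp (fun n => n ≡ δ [ZMOD M]) F) (k : ℕ) :
    co1_supp (fun n => n ≡ k * δ [ZMOD M]) (F ^ k) := by
  have h1 := co1_prod M (Finset.range k) (fun _ => F) (fun _ => δ) (fun _ _ => h)
  rw [Finset.prod_const, Finset.sum_const, Finset.card_range, nsmul_eq_mul] at h1
  exact h1

theorem co1_sq (M : ℤ) (F : LL) (h : co1_supp (fun n => M ∣ n) F) :
    co1_supp (fun n => 2 * M ∣ n) (F ^ 2) := by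
  intro n hn
  by_contra hM
  apply hn
  rw [sq, HahnSeries.coeff_mul]
  refine Finset.sum_involution (fun p _ => (p.2, p.1)) ?_ ?_ ?_ ?_
  · rintro ⟨a, b⟩ _
    simp only
    rw [mul_comm (F.coeff b)]
    exact CharTwo.add_self_eq_zero _
  · rintro ⟨a, b⟩ hab hne heq
    simp only [Prod.mk.injEq] at heq
    simp only [Finset.mem_antidiagonal] at hab
    obtain ⟨k, hk⟩ := h a (left_ne_zero_of_mul hne)
    apply hM
    refine ⟨k, ?_⟩
    rw [← hab.2.2, heq.1, hk]
    ring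
  · rintro ⟨a, b⟩ hab
    simp only [Finset.mem_antidiagonal] at hab ⊢
    exact ⟨hab.2.1, hab.1, by rw [add_comm]; exact hab.2.2⟩
  · rintro ⟨a, b⟩ _
    rfl

theorem co1_frob (F : LL) (m : ℕ) : co1_supp (fun n => (2 : ℤ) ^ m ∣ n) (F ^ (2 ^ m)) := by
  induction m with
  | zero => intro n _; simp
  | succ m ih =>
    have h := co1_sq _ _ ih
    rw [← pow_mul, ← pow_succ] at h
    intro n hn
    have h2 := h n hn
    simp only at h2
    rwa [← pow_succ'] at h2

theorem co1_th (s : ℕ) (hs : 1 ≤ s) (c : ℤ) :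
    co1_supp (fun n => n ≡ c ^ 2 [ZMOD 2 ^ (s + 1)]) (th s c) := by
  classical
  intro n hn
  rw [th_coeff] at hn
  have h : ∃ m : ℤ, m ^ 2 = n ∧ m ≡ c [ZMOD 2 ^ s] := by
    by_contra h
    exact hn (if_neg h)
  obtain ⟨m, hm, hc⟩ := h
  obtain ⟨k, hk⟩ := hc.symm.dvd
  obtain ⟨r, rfl⟩ := Nat.exists_eq_add_of_le' hs
  have e : m = c + 2 ^ (r + 1) * k := by linarith
  refine (Int.modEq_iff_dvd.2 ⟨c * k + 2 ^ r * k ^ 2, ?_⟩).symm
  rw [← hm, e]
  ring

theorem co1_sig3 (M δ : ℤ) (F : LL) (h : co1_supp (fun n => n ≡ δ [ZMOD M]) F) :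
    co1_supp (fun n => n ≡ 3 * δ [ZMOD M]) (sig 3 1 F) := by
  intro n hn
  rw [sig_coeff (by norm_num)] at hn
  by_cases h3 : ((3 : ℕ) : ℤ) ∣ n
  · rw [if_pos h3, one_zpow, Units.val_one, one_mul] at hn
    have h1 := h _ hn
    obtain ⟨m, rfl⟩ := h3
    rw [Int.mul_ediv_cancel_left _ (by norm_num)] at h1
    exact h1.mul_left 3
  · exact absurd (if_neg h3) hn

theorem co1_reps (s : ℕ) (hs : 2 ≤ s) : DDk = ∑ c ∈ reps s, th s (c : ℤ) := by
  classical
  ext n
  rw [co1_coeff_sum, DDk_coeff]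
  simp only [th_coeff]
  obtain ⟨r, rfl⟩ := Nat.exists_eq_add_of_le' hs
  have hp : (2 : ℤ) ^ (r + 2) = 4 * 2 ^ r := by ring
  have hp' : (2 : ℕ) ^ (r + 2 - 1) = 2 * 2 ^ r := by
    rw [show r + 2 - 1 = r + 1 by omega]; ring
  have hpos : (0 : ℤ) < 2 ^ r := by positivity
  by_cases h : ∃ m : ℤ, m ^ 2 = n ∧ Odd m
  · rw [if_pos h]
    obtain ⟨m, hm, hodd⟩ := h
    -- the representative
    have hpos4 : (0 : ℤ) < 4 * 2 ^ r := by linarith
    set a := m % (4 * 2 ^ r) with ha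
    have ha0 := Int.emod_nonneg m hpos4.ne'
    have ha1 := Int.emod_lt_of_pos m hpos4
    have hea := Int.mul_ediv_add_emod m (4 * 2 ^ r)
    have haodd : a % 2 = 1 := by
      rw [ha]
      rw [Int.odd_iff] at hodd
      rw [Int.emod_emod_of_dvd m ⟨2 * 2 ^ r, by ring⟩]
      exact hodd
    obtain ⟨c, hcr, hcm⟩ : ∃ c : ℕ, c ∈ reps (r + 2) ∧ ((c : ℤ) ≡ m [ZMOD 4 * 2 ^ r] ∨
        (c : ℤ) ≡ -m [ZMOD 4 * 2 ^ r]) := by
      by_cases hlt : a < 2 * 2 ^ r
      · refine ⟨a.toNat, ?_, Or.inl ?_⟩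
        · unfold reps
          rw [Finset.mem_filter, Finset.mem_range, hp']
          have e1 : ((2 * 2 ^ r : ℕ) : ℤ) = 2 * 2 ^ r := by push_cast; ring
          constructor <;> omega
        · rw [Int.toNat_of_nonneg ha0]
          exact Int.mod_modEq _ _
      · refine ⟨(4 * 2 ^ r - a).toNat, ?_, Or.inr ?_⟩
        · unfold reps
          rw [Finset.mem_filter, Finset.mem_range, hp']
          have e1 : ((2 * 2 ^ r : ℕ) : ℤ) = 2 * 2 ^ r := by push_cast; ring
          have hne : a ≠ 2 * 2 ^ r := by omega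
          constructor <;> omega
        · rw [Int.toNat_of_nonneg (by omega)]
          have h1 : a ≡ m [ZMOD 4 * 2 ^ r] := Int.mod_modEq _ _
          have h2 : (4 * 2 ^ r : ℤ) ≡ 0 [ZMOD 4 * 2 ^ r] := by
            rw [Int.modEq_zero_iff_dvd]
          simpa using h2.sub h1
    rw [Finset.sum_eq_single c, if_pos]
    · rcases hcm with h1 | h1
      · exact ⟨m, hm, by rw [hp]; exact h1.symm⟩
      · exact ⟨-m, by rw [neg_sq, hm], by rw [hp]; exact h1.symm⟩
    · intro d hd hdc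
      rw [if_neg]
      rintro ⟨m', hm', hmd⟩
      rw [hp] at hmd
      apply hdc
      have hmm : m' = m ∨ m' = -m := sq_eq_sq_iff_eq_or_eq_neg.1 (hm'.trans hm.symm)
      have hcd : (d : ℤ) ≡ c [ZMOD 4 * 2 ^ r] ∨ (d : ℤ) ≡ -c [ZMOD 4 * 2 ^ r] := by
        rcases hmm with rfl | rfl
        · rcases hcm with h1 | h1
          · exact Or.inl (hmd.symm.trans h1.symm)
          · exact Or.inr (hmd.symm.trans (by simpa using h1.symm.neg))
        · rcases hcm with h1 | h1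
          · exact Or.inr (hmd.symm.trans h1.symm.neg)
          · exact Or.inl (hmd.symm.trans h1.symm)
      unfold reps at hd hcr
      rw [Finset.mem_filter, Finset.mem_range, hp'] at hd hcr
      have e1 : ((2 * 2 ^ r : ℕ) : ℤ) = 2 * 2 ^ r := by push_cast; ring
      rcases hcd with h1 | h1
      · obtain ⟨k, hk⟩ := h1.dvd
        have hk0 : k = 0 := by
          by_contra hk0
          rcases lt_or_gt_of_ne hk0 with h | h
          · have h2 : (4 * 2 ^ r : ℤ) * k ≤ 4 * 2 ^ r * (-1) :=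
              mul_le_mul_of_nonneg_left (by omega) hpos4.le
            omega
          · have h2 : (4 * 2 ^ r : ℤ) * 1 ≤ 4 * 2 ^ r * k :=
              mul_le_mul_of_nonneg_left (by omega) hpos4.le
            omega
        rw [hk0, mul_zero] at hk
        omega
      · obtain ⟨k, hk⟩ := h1.dvd
        exfalso
        have h3 : (4 * 2 ^ r : ℤ) * k < 0 := by omega
        have h4 : k ≤ -1 := by
          by_contra h5
          have h6 : 0 ≤ (4 * 2 ^ r : ℤ) * k := mul_nonneg hpos4.le (by omega)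
          omega
        have h2 : (4 * 2 ^ r : ℤ) * k ≤ 4 * 2 ^ r * (-1) :=
              mul_le_mul_of_nonneg_left h4 hpos4.le
        omega
    · intro h1
      exact absurd hcr h1
  · rw [if_neg h]
    symm
    refine Finset.sum_eq_zero fun c hc => if_neg ?_
    rintro ⟨m, hm, hmc⟩
    apply h
    refine ⟨m, hm, ?_⟩
    unfold reps at hc
    rw [Finset.mem_filter] at hc
    obtain ⟨k, hk⟩ := hmc.dvd
    rw [hp, mul_assoc] at hk
    rw [Int.odd_iff]
    omega

theorem co1_single (F : LL) (n : ℤ) :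
    (HahnSeries.single (-1 : ℤ) (1 : kk) * F).coeff n = F.coeff (n + 1) := by
  have h := HahnSeries.coeff_single_mul_add (r := (1 : kk)) (x := F) (a := n + 1) (b := -1)
  rw [add_neg_cancel_right, one_mul] at h
  exact h

theorem co1_Ug (s : ℕ) (γ n : ℤ) : (Ug s γ).coeff n =
    (open Classical in if n ≡ γ [ZMOD 2 ^ s] then (Wt 1 0).coeff n else 0) := by
  classical
  unfold Ug Wt
  rw [co1_single, co1_single, ps_coeff, ps_coeff]
  by_cases h0 : 0 ≤ n + 1
  · have e : ((n + 1).toNat : ℤ) - 1 = n := by omega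
    rw [if_pos h0, if_pos h0, e]
    have h1 : ∀ m, m ≡ 0 [MOD 1] := fun m => Nat.modEq_one
    simp only [h1, and_true]
    by_cases h2 : n ≡ γ [ZMOD 2 ^ s]
    · simp only [h2, and_true, if_true]
    · simp only [h2, and_false, if_false]
  · rw [if_neg h0, if_neg h0]
    split_ifs <;> rfl

theorem co1_ext {P : ℤ → Prop} {A A' B B' : LL} (h : A + A' = B + B') (hA : co1_supp P A)
    (hB : co1_supp P B) (hA' : co1_supp (fun n => ¬ P n) A') (hB' : co1_supp (fun n => ¬ P n) B') :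
    A = B := by
  ext n
  have h1 := congrArg (fun F => HahnSeries.coeff F n) h
  simp only [HahnSeries.coeff_add] at h1
  by_cases hP : P n
  · have e1 : A'.coeff n = 0 := by
      by_contra h2
      exact hA' n h2 hP
    have e2 : B'.coeff n = 0 := by
      by_contra h2
      exact hB' n h2 hP
    rwa [e1, e2, add_zero, add_zero] at h1
  · have e1 : A.coeff n = 0 := by
      by_contra h2
      exact hP (hA n h2)
    have e2 : B.coeff n = 0 := by
      by_contra h2
      exact hP (hB n h2)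
    rw [e1, e2]

open Classical in
/-- Module CO1. -/
theorem CO1_of (hF1 : F1_stmt) : CO1_stmt := by
  obtain ⟨-, -, hWE, hE3⟩ := hF1
  intro s j γ hs hsj
  set M : ℤ := 2 ^ (s + 1) with hM
  -- the product formula
  have hprod : ∀ j : ℕ, Ex ^ (4 ^ j) = Ex * ∏ i : Fin j, (sig 3 1 DDk) ^ (4 ^ (i : ℕ)) := by
    intro j
    induction j with
    | zero => simp
    | succ j ih =>
      rw [Fin.prod_univ_castSucc]
      simp only [Fin.val_castSucc, Fin.val_last]
      rw [← mul_assoc, ← ih, ← hE3, ← pow_mul, ← pow_add]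
      congr 1
      ring
  have hD : Wt 1 0 * Ex ^ (4 ^ j) = ∑ c ∈ Fintype.piFinset (fun _ : Fin j => reps s),
      ∏ i : Fin j, (sig 3 1 (th s (c i))) ^ (4 ^ (i : ℕ)) := by
    rw [hprod j, ← mul_assoc, hWE, one_mul]
    have h1 : ∀ i : Fin j, (sig 3 1 DDk) ^ (4 ^ (i : ℕ)) =
        ∑ c ∈ reps s, (sig 3 1 (th s (c : ℤ))) ^ (4 ^ (i : ℕ)) := by
      intro i
      rw [co1_reps s hs, map_sum]
      have h4 : (4 : ℕ) ^ (i : ℕ) = 2 ^ (2 * (i : ℕ)) := by rw [pow_mul]; norm_num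
      rw [h4, sum_pow_char_pow]
    simp only [h1]
    rw [Finset.prod_univ_sum]
  have hterm : ∀ c : Fin j → ℕ, co1_supp (fun n => n ≡ 3 * ∑ i : Fin j, (4 : ℤ) ^ (i : ℕ) * (c i : ℤ) ^ 2
      [ZMOD M]) (∏ i : Fin j, (sig 3 1 (th s (c i))) ^ (4 ^ (i : ℕ))) := by
    intro c
    have h1 := co1_prod M Finset.univ (fun i : Fin j => (sig 3 1 (th s (c i))) ^ (4 ^ (i : ℕ)))
      (fun i => ((4 ^ (i : ℕ) : ℕ) : ℤ) * (3 * (c i : ℤ) ^ 2))
      (fun i _ => co1_pow M _ _ (co1_sig3 M _ _ (co1_th s (by omega) (c i))) _)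
    have e : (∑ i : Fin j, ((4 ^ (i : ℕ) : ℕ) : ℤ) * (3 * (c i : ℤ) ^ 2)) =
        3 * ∑ i : Fin j, (4 : ℤ) ^ (i : ℕ) * (c i : ℤ) ^ 2 := by
      rw [Finset.mul_sum]
      refine Finset.sum_congr rfl fun i _ => ?_
      push_cast
      ring
    rw [e] at h1
    exact h1
  have hEx : co1_supp (fun n => M ∣ n) (Ex ^ (4 ^ j)) := by
    have h4 : (4 : ℕ) ^ j = 2 ^ (2 * j) := by rw [pow_mul]; norm_num
    rw [h4]
    intro n hn
    exact (pow_dvd_pow 2 hsj).trans (co1_frob Ex (2 * j) n hn)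
  have hMadd : ∀ a b : ℤ, M ∣ b → (a + b ≡ γ [ZMOD M] ↔ a ≡ γ [ZMOD M]) := by
    intro a b hb
    have h1 : a + b ≡ a [ZMOD M] := by
      have h2 : b ≡ 0 [ZMOD M] := Int.modEq_zero_iff_dvd.2 hb
      simpa using (Int.ModEq.refl a).add h2
    exact ⟨fun h => h1.symm.trans h, fun h => h1.trans h⟩
  refine co1_ext (P := fun n => n ≡ γ [ZMOD M]) (A' := (Wt 1 0 - Ug (s + 1) γ) * Ex ^ (4 ^ j))
    (B' := ∑ c ∈ (Fintype.piFinset fun _ : Fin j => reps s).filter
      (fun c => ¬ 3 * ∑ i : Fin j, (4 : ℤ) ^ (i : ℕ) * (c i : ℤ) ^ 2 ≡ γ [ZMOD 2 ^ (s + 1)]),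
      ∏ i : Fin j, (sig 3 1 (th s (c i))) ^ (4 ^ (i : ℕ))) ?_ ?_ ?_ ?_ ?_
  · rw [← add_mul, add_sub_cancel, hD]
    exact (Finset.sum_filter_add_sum_filter_not _ _ _).symm
  · refine co1_mul (P := fun n => n ≡ γ [ZMOD M]) (Q := fun n => M ∣ n)
      (fun a b ha hb => (hMadd a b hb).2 ha) ?_ hEx
    intro n hn
    rw [co1_Ug] at hn
    by_contra h
    exact hn (if_neg h)
  · refine co1_sum _ _ fun c hc n hn => ?_
    exact (hterm c n hn).trans (Finset.mem_filter.1 hc).2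
  · refine co1_mul (P := fun n => ¬ n ≡ γ [ZMOD M]) (Q := fun n => M ∣ n)
      (fun a b ha hb h => ha ((hMadd a b hb).1 h)) ?_ hEx
    intro n hn h
    apply hn
    rw [HahnSeries.coeff_sub, co1_Ug, if_pos h, sub_self]
  · refine co1_sum _ _ fun c hc n hn h => ?_
    exact (Finset.mem_filter.1 hc).2 ((hterm c n hn).symm.trans h)

end Pool.Agent.helper7.IG
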