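import Mathlib
import Pool.Agent.helper7.IG.Stmt1

/-!
# IG, module GAP: from the measure of linear independence to linear gaps
-/

set_option autoImplicit false

open Polynomial

noncomputable section

namespace Pool.Agent.helper7.IG

/-- partition numbers modulo 2, extended by zero -/
def gap_F (m : ℤ) : ZMod 2 := if 0 ≤ m then (Fintype.card (Nat.Partition m.toNat) : ZMod 2) else 0

/-- the sum in the statement -/
def gap_S (H : Finset ℕ) (n : ℕ) : ZMod 2 :=
  ∑ h ∈ H.filter (fun h => h ≤ n), (Fintype.card (Nat.Partition (n - h)) : ZMod 2)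

theorem gap_S_eq (H : Finset ℕ) (n : ℕ) : gap_S H n = ∑ h ∈ H, gap_F ((n : ℤ) - h) := by
  unfold gap_S
  rw [Finset.sum_filter]
  refine Finset.sum_congr rfl fun h _ => ?_
  unfold gap_F
  by_cases hn : h ≤ n
  · rw [if_pos hn, if_pos (by omega)]
    have e : n - h = ((n : ℤ) - h).toNat := by omega
    rw [← e]
  · rw [if_neg hn, if_neg (by omega)]

/-- exponent of the monomial for `v` -/
def gap_k (T : ℕ) (v : ℤ) : ℕ := (-(v / T)).toNat

/-- residue for `v` -/
def gap_ρ (T : ℕ) (v : ℤ) : ℕ := (v % T).toNat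

theorem gap_div {T : ℕ} (hT : 1 ≤ T) {v : ℤ} (hv : v < T) :
    v = (gap_ρ T v : ℤ) - T * (gap_k T v : ℤ) ∧ gap_ρ T v < T := by
  have hT' : (0 : ℤ) < T := by omega
  have h1 := Int.emod_nonneg v hT'.ne'
  have h2 := Int.emod_lt_of_pos v hT'
  have h3 := Int.mul_ediv_add_emod v T
  have h4 : v / T ≤ 0 := by
    by_contra h
    have h5 : 1 ≤ v / T := by omega
    have h6 : (T : ℤ) * 1 ≤ T * (v / T) := mul_le_mul_of_nonneg_left h5 hT'.le
    omega
  have e1 : (gap_ρ T v : ℤ) = v % T := Int.toNat_of_nonneg h1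
  have e2 : (gap_k T v : ℤ) = -(v / T) := Int.toNat_of_nonneg (by omega)
  constructor
  · rw [e1, e2]
    linarith [mul_neg (T : ℤ) (v / T)]
  · omega

/-- the coefficient polynomials -/
def gap_A (T : ℕ) (V : Finset ℤ) (ρ : ℕ) : Polynomial (ZMod 2) :=
  ∑ v ∈ V with gap_ρ T v = ρ, X ^ gap_k T v

theorem gap_coeff_one {T : ℕ} (hT : 1 ≤ T) {v : ℤ} (hv : v < T) (n : ℕ) :
    PowerSeries.coeff n ((PowerSeries.X : PowerSeries (ZMod 2)) ^ gap_k T v * Pr T (gap_ρ T v)) =
      gap_F ((T : ℤ) * n + v) := by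
  obtain ⟨h1, h2⟩ := gap_div hT hv
  rw [PowerSeries.coeff_X_pow_mul']
  unfold gap_F Pr
  set k := gap_k T v
  set ρ := gap_ρ T v
  by_cases hk : k ≤ n
  · obtain ⟨m, rfl⟩ := Nat.exists_eq_add_of_le hk
    have e : (T : ℤ) * ((k + m : ℕ) : ℤ) + v = ((T * m + ρ : ℕ) : ℤ) := by
      rw [h1]; push_cast; ring
    rw [if_pos hk, PowerSeries.coeff_mk, e, if_pos (by positivity), Int.toNat_natCast,
      Nat.add_sub_cancel_left]
  · rw [if_neg hk, if_neg]
    intro h3
    have h4 : (n : ℤ) + 1 ≤ k := by omega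
    have h5 : (T : ℤ) * (n + 1) ≤ T * k := mul_le_mul_of_nonneg_left h4 (by positivity)
    have h6 : (ρ : ℤ) < T := by exact_mod_cast h2
    rw [mul_add, mul_one] at h5
    omega

theorem gap_coeff {T : ℕ} (hT : 1 ≤ T) (V : Finset ℤ) (hV : ∀ v ∈ V, v < T) (n : ℕ) :
    PowerSeries.coeff n
      (∑ ρ ∈ Finset.range T, ((gap_A T V ρ : Polynomial (ZMod 2)) : PowerSeries (ZMod 2)) * Pr T ρ) =
      ∑ v ∈ V, gap_F ((T : ℤ) * n + v) := by
  have h1 : ∀ ρ, ((gap_A T V ρ : Polynomial (ZMod 2)) : PowerSeries (ZMod 2)) * Pr T ρ =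
      ∑ v ∈ V with gap_ρ T v = ρ, (PowerSeries.X : PowerSeries (ZMod 2)) ^ gap_k T v *
        Pr T (gap_ρ T v) := by
    intro ρ
    have e : ((gap_A T V ρ : Polynomial (ZMod 2)) : PowerSeries (ZMod 2)) =
        ∑ v ∈ V with gap_ρ T v = ρ, (PowerSeries.X : PowerSeries (ZMod 2)) ^ gap_k T v := by
      unfold gap_A
      rw [← Polynomial.coeToPowerSeries.ringHom_apply, map_sum]
      refine Finset.sum_congr rfl fun v _ => ?_
      rw [map_pow, Polynomial.coeToPowerSeries.ringHom_apply, Polynomial.coe_X]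
    rw [e, Finset.sum_mul]
    refine Finset.sum_congr rfl fun v hv => ?_
    rw [(Finset.mem_filter.1 hv).2]
  simp only [h1]
  rw [Finset.sum_fiberwise_of_maps_to (g := gap_ρ T)
    (fun v hv => Finset.mem_range.2 (gap_div hT (hV v hv)).2), map_sum]
  exact Finset.sum_congr rfl fun v hv => gap_coeff_one hT (hV v hv) n

theorem gap_A_ne {T : ℕ} (hT : 1 ≤ T) (V : Finset ℤ) (hV : ∀ v ∈ V, v < T) {w : ℤ} (hw : w ∈ V) :
    gap_A T V (gap_ρ T w) ≠ 0 := by
  intro h
  have h1 := congrArg (fun P => Polynomial.coeff P (gap_k T w)) h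
  simp only [Polynomial.coeff_zero] at h1
  unfold gap_A at h1
  rw [Polynomial.finsetSum_coeff, Finset.sum_eq_single w] at h1
  · rw [Polynomial.coeff_X_pow, if_pos rfl] at h1
    exact one_ne_zero h1
  · intro v hv hvw
    rw [Polynomial.coeff_X_pow, if_neg]
    intro hk
    apply hvw
    have e1 := (gap_div hT (hV v (Finset.mem_filter.1 hv).1)).1
    have e2 := (gap_div hT (hV w hw)).1
    rw [(Finset.mem_filter.1 hv).2, ← hk] at e1
    rw [e1]
    exact e2.symm
  · intro h2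
    exact absurd (show w ∈ V.filter (fun v => gap_ρ T v = gap_ρ T w) from
      Finset.mem_filter.2 ⟨hw, rfl⟩) h2

theorem gap_main (hmeas : MEAS_stmt) (T : ℕ) (hT : 1 ≤ T) (H : Finset ℕ) (hH : H.Nonempty) (h0 : ℕ)
    (hh0 : ∀ h ∈ H, h ≤ h0) (i i' : ℕ) (hi' : i' < T) (hii : i + h0 < i') :
    ∃ K : ℕ, ∀ x : ℕ, 1 ≤ x → ∃ n : ℕ, x < n ∧ T * n + i' ≤ K * x ∧
      gap_S H (T * n + i) + gap_S H (T * n + i') ≠ 0 := by
  classical
  set V : Finset ℤ := H.image (fun h : ℕ => (i : ℤ) - h) ∪ H.image (fun h : ℕ => (i' : ℤ) - h)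
    with hVdef
  have hV : ∀ v ∈ V, v < T := by
    intro v hv
    rw [hVdef, Finset.mem_union, Finset.mem_image, Finset.mem_image] at hv
    rcases hv with ⟨h, _, rfl⟩ | ⟨h, _, rfl⟩ <;> omega
  have hdisj : Disjoint (H.image (fun h : ℕ => (i : ℤ) - h)) (H.image (fun h : ℕ => (i' : ℤ) - h)) := by
    rw [Finset.disjoint_left]
    intro v hv hv'
    rw [Finset.mem_image] at hv hv'
    obtain ⟨h, hh, rfl⟩ := hv
    obtain ⟨h', hh', he⟩ := hv'
    have := hh0 h hh
    have := hh0 h' hh'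
    omega
  have hc : ∀ n : ℕ, ∑ v ∈ V, gap_F ((T : ℤ) * n + v) =
      gap_S H (T * n + i) + gap_S H (T * n + i') := by
    intro n
    rw [hVdef, Finset.sum_union hdisj, Finset.sum_image (fun a _ b _ h => by simpa using h),
      Finset.sum_image (fun a _ b _ h => by simpa using h), gap_S_eq, gap_S_eq]
    congr 1 <;>
    · refine Finset.sum_congr rfl fun h _ => ?_
      congr 1
      push_cast
      ring
  obtain ⟨w, hw⟩ : V.Nonempty := by
    obtain ⟨h, hh⟩ := hH
    exact ⟨_, Finset.mem_union_left _ (Finset.mem_image_of_mem _ hh)⟩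
  obtain ⟨K, hK⟩ := hmeas T hT
  set D0 := V.sup (gap_k T) with hD0
  have hdeg : ∀ ρ, (gap_A T V ρ).natDegree ≤ D0 := by
    intro ρ
    refine Polynomial.natDegree_sum_le_of_forall_le _ _ fun v hv => ?_
    rw [Polynomial.natDegree_X_pow]
    exact Finset.le_sup (Finset.mem_filter.1 hv).1
  refine ⟨T * (K * (D0 + 2) + 1), fun x hx => ?_⟩
  set c : ℕ → ZMod 2 := fun n => ∑ v ∈ V, gap_F ((T : ℤ) * n + v) with hcdef
  set B : Polynomial (ZMod 2) := ∑ n ∈ Finset.range (x + 1), Polynomial.C (c n) * X ^ n with hB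
  have hBc : ∀ n, B.coeff n = if n ≤ x then c n else 0 := by
    intro n
    rw [hB, Polynomial.finsetSum_coeff]
    by_cases hn : n ≤ x
    · rw [if_pos hn, Finset.sum_eq_single n]
      · rw [Polynomial.coeff_C_mul, Polynomial.coeff_X_pow, if_pos rfl, mul_one]
      · intro m _ hm
        rw [Polynomial.coeff_C_mul, Polynomial.coeff_X_pow, if_neg (Ne.symm hm), mul_zero]
      · intro h
        exact absurd (Finset.mem_range.2 (by omega)) h
    · rw [if_neg hn]
      refine Finset.sum_eq_zero fun m hm => ?_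
      rw [Finset.mem_range] at hm
      rw [Polynomial.coeff_C_mul, Polynomial.coeff_X_pow, if_neg (by omega), mul_zero]
  have hBd : B.natDegree ≤ D0 + x := by
    rw [Polynomial.natDegree_le_iff_coeff_eq_zero]
    intro n hn
    rw [hBc, if_neg (by omega)]
  obtain ⟨n, hn1, hn2⟩ := hK (D0 + x) (gap_A T V) B (fun ρ => (hdeg ρ).trans (Nat.le_add_right _ _))
    hBd ⟨gap_ρ T w, (gap_div hT (hV w hw)).2, gap_A_ne hT V hV hw⟩
  rw [map_sub, gap_coeff hT V hV, Polynomial.coeff_coe, hBc] at hn2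
  by_cases hnx : n ≤ x
  · rw [if_pos hnx] at hn2
    exact absurd (sub_self _) hn2
  · rw [if_neg hnx, sub_zero, hc] at hn2
    refine ⟨n, not_le.1 hnx, ?_, hn2⟩
    have h1 : D0 + x + 1 ≤ (D0 + 2) * x := by nlinarith
    have h2 : K * (D0 + x + 1) ≤ K * ((D0 + 2) * x) := Nat.mul_le_mul_left _ h1
    have h3 : n + 1 ≤ (K * (D0 + 2) + 1) * x := by
      calc n + 1 ≤ K * ((D0 + 2) * x) + x := by omega
        _ = _ := by ring
    calc T * n + i' ≤ T * (n + 1) := by rw [mul_add, mul_one]; omega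
      _ ≤ T * ((K * (D0 + 2) + 1) * x) := Nat.mul_le_mul_left _ h3
      _ = _ := by ring

/-- Module GAP. -/
theorem GAP_of (hmeas : MEAS_stmt) : GAP_stmt := by
  intro b r hb hr H hH t a ht
  classical
  obtain ⟨h0, hh0⟩ : ∃ h0, ∀ h ∈ H, h ≤ h0 := ⟨H.sup id, fun h hh => Finset.le_sup (f := id) hh⟩
  unfold IsAutomatic at hr
  set kap := hr.toFinset.card with hkap
  set j : ℕ → ℕ := fun s => a % t + t * (h0 + 1) * s with hj
  obtain ⟨e, he⟩ : ∃ e, a % t + t * (h0 + 1) * kap < b ^ e :=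
    ⟨a % t + t * (h0 + 1) * kap, Nat.lt_pow_self (by omega)⟩
  have hjlt : ∀ s ≤ kap, j s < b ^ e := by
    intro s hs
    refine lt_of_le_of_lt ?_ he
    exact Nat.add_le_add_left (Nat.mul_le_mul_left _ hs) _
  have hjmod : ∀ s, j s ≡ a [MOD t] := by
    intro s
    have h1 : t * (h0 + 1) * s ≡ 0 [MOD t] := by
      rw [mul_assoc]
      exact (Nat.modEq_zero_iff_dvd).2 (dvd_mul_right _ _)
    have h2 := (Nat.mod_modEq a t).add h1
    simpa using h2
  obtain ⟨s, hs, s', hs', hne, heq⟩ := Finset.exists_ne_map_eq_of_card_lt_of_maps_to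
    (s := Finset.range (kap + 1)) (t := hr.toFinset) (by rw [Finset.card_range]; omega)
    (f := fun s => fun n => r (b ^ e * n + j s)) (fun s hs => by
      rw [Finset.mem_coe, Finset.mem_range] at hs
      rw [Finset.mem_coe, Set.Finite.mem_toFinset]
      exact ⟨e, j s, hjlt s (by omega), rfl⟩)
  rw [Finset.mem_range] at hs hs'
  obtain ⟨i, i', hi1, hi2, hilt, hi'lt, hii, hr'⟩ : ∃ i i' : ℕ, i ≡ a [MOD t] ∧ i' ≡ a [MOD t] ∧
      i < b ^ e ∧ i' < b ^ e ∧ i + h0 < i' ∧ ∀ n, r (b ^ e * n + i) = r (b ^ e * n + i') := by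
    have key : ∀ u u' : ℕ, u < u' → j u + h0 < j u' := by
      intro u u' huu
      obtain ⟨m, rfl⟩ := Nat.exists_eq_add_of_lt huu
      have h1 : t * (h0 + 1) * (u + m + 1) = t * (h0 + 1) * u + t * (h0 + 1) * (m + 1) := by ring
      have h2 : 1 * (h0 + 1) * 1 ≤ t * (h0 + 1) * (m + 1) :=
        Nat.mul_le_mul (Nat.mul_le_mul_right _ ht) (by omega)
      simp only [hj]
      rw [h1]
      omega
    rcases lt_or_gt_of_ne hne with h | h
    · exact ⟨j s, j s', hjmod s, hjmod s', hjlt s (by omega), hjlt s' (by omega), key _ _ h,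
        fun n => congrFun heq n⟩
    · exact ⟨j s', j s, hjmod s', hjmod s, hjlt s' (by omega), hjlt s (by omega), key _ _ h,
        fun n => (congrFun heq n).symm⟩
  have hbe : 1 ≤ b ^ e := Nat.one_le_pow _ _ (by omega)
  have hT : 1 ≤ b ^ e * t := Nat.one_le_iff_ne_zero.2 (Nat.mul_ne_zero (by omega) (by omega))
  have hbT : b ^ e ≤ b ^ e * t := Nat.le_mul_of_pos_right _ (by omega)
  obtain ⟨K, hK⟩ := gap_main hmeas (b ^ e * t) hT H hH h0 hh0 i i' (by omega) hii
  refine ⟨K, fun x hx => ?_⟩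
  obtain ⟨n, hn1, hn2, hn3⟩ := hK x hx
  by_contra hcon
  push Not at hcon
  have hTn : n ≤ b ^ e * t * n := Nat.le_mul_of_pos_left _ (by omega)
  have hmod : ∀ u, u ≡ a [MOD t] → b ^ e * t * n + u ≡ a [MOD t] := by
    intro u hu
    have h1 : b ^ e * t * n ≡ 0 [MOD t] := by
      apply (Nat.modEq_zero_iff_dvd).2
      exact Dvd.dvd.mul_right (dvd_mul_left _ _) _
    simpa using h1.add hu
  have e1 := hcon (b ^ e * t * n + i) (by omega) (by omega) (hmod i hi1)
  have e2 := hcon (b ^ e * t * n + i') (by omega) (by omega) (hmod i' hi2)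
  apply hn3
  have e3 : gap_S H (b ^ e * t * n + i) = r (b ^ e * t * n + i) := e1
  have e4 : gap_S H (b ^ e * t * n + i') = r (b ^ e * t * n + i') := e2
  rw [e3, e4, mul_assoc, hr' (t * n)]
  exact CharTwo.add_self_eq_zero _

end Pool.Agent.helper7.IG
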